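import Pool.Agent.VCO.Fin
import Pool.Agent.VCO.TDefs2

/-!
# Bloch's conjecture up to nilpotents for coverings of surfaces
-/

set_option autoImplicit false

open MvPolynomial
open Pool.Agent.VCI (ciS CHQ)
open Pool.Agent.VRC (cone IsIrr IsSmooth IsGenericPoint EffCorr ActsByScalar veryGen IsAct)
open Pool.Agent.VRB (eqs mat TanLe Separates)
open Pool.Agent.VIR (base)
open Pool.Agent.VCO

/-- Let `Y : h = 0` be an irreducible variety in the projective space of dimension `r + 2`, and let
the vectors of forms `(g 1 l, …, g m l)` be sections of a vector bundle of rank `c` on `Y`, which is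
contained in a sum of `m` line bundles, and `E k` bihomogeneous polynomials. Let the numbers `a l`
be algebraically independent over the field generated by the coefficients of the `h j`, the `g i l`
and the `E k` and let `X : h = 0, ∑ l, a l * g i l = 0` (`eqs h g a`) be a smooth irreducible
surface, such that the matrix `g i l` has rank `c` at its points, `Y` is smooth of dimension `c + 2`
there and the sections take independent values at a general point of `X` and any other point of `X`.
Let `E k (x, y) = 0` for all `k` be an equivalence relation on `X`, such that the class of a general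
point is finite and has another point and the set of the pairs of different equivalent points
`x, y`, `x` general, is irreducible, and let such `x` and `y` be on a rational curve of `Y`. (So `X`
is a covering of a surface, on which the monodromy is doubly transitive on the points of a fibre,
and `Y` is mapped to this surface with rationally connected fibres.) The surface has a generic point
`ξ` over an algebraic closure `Ω` of its function field. Let `X` have a holomorphic two-form with
different values at `ξ` and at a point which is equivalent to `ξ` (that is not the inverse image of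
a form of the other surface) and let `Γ i` and `Γ' i` be finitely many effective correspondences
from `X` to itself, given over the generic point of the first factor, such that `Γ i - Γ' i` acts on
the holomorphic two-forms of `X` by a complex number `μ i`. Then the `μ i` are rational numbers
`q i`. Outside countably many curves `D j = 0` of `X` the cycles `Γ i p` and `Γ' i p` are defined,
there is exactly one endomorphism `Ψ i` of the Chow group of zero-cycles of `X` with rational
coefficients which maps the class of `p` to the class of `Γ i p - Γ' i p` for all these `p`, the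
classes of these `p` have the same number `b > 1` of points and there is exactly one endomorphism
`Θ` which maps the class of `p` to the class of the sum of the points which are equivalent to `p`.
For some `N` all products of `N` of the operators `(1 - Θ / b) (Ψ i - q i) (1 - Θ / b)` are zero. -/
theorem Pool.Agent.Results.MP_31564d_ag.CoversOfSurfaces.result (r s m L c u : ℕ)
    (h : Fin s → MvPolynomial (Fin (r + 3)) ℂ)
    (g : Fin m → Fin L → MvPolynomial (Fin (r + 3)) ℂ)
    (E : Fin u → MvPolynomial (Fin (r + 3) ⊕ Fin (r + 3)) ℂ) (a : Fin L → ℂ) (e : Fin s → ℕ)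
    (d : Fin m → ℕ) (he : ∀ j, (h j).IsHomogeneous (e j))
    (hd : ∀ i l, (g i l).IsHomogeneous (d i)) (hY : IsIrr h)
    (hE : IsCov (eqs h g a) E) (hRC : IsRCCov h (eqs h g a) E)
    (ha : AlgebraicIndependent (base h g E) a)
    (hrk : ∀ z ∈ cone (eqs h g a), (mat g z).rank = c)
    (htan : ∀ z ∈ cone (eqs h g a), TanLe h (c + 3) z) (hsep : Separates (eqs h g a) g)
    (hXs : IsSmooth (eqs h g a)) (hXi : IsIrr (eqs h g a)) :
    (∃ (Ω : Type) (_ : Field Ω) (_ : Algebra ℂ Ω) (_ : IsAlgClosed Ω) (ξ : Fin (r + 3) → Ω),
      IsGenericPoint (eqs h g a) ξ) ∧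
    ∀ (Ω : Type) [Field Ω] [Algebra ℂ Ω] [IsAlgClosed Ω] (ξ : Fin (r + 3) → Ω),
      IsGenericPoint (eqs h g a) ξ → HasFormCov (eqs h g a) E ξ →
      ∀ (n : ℕ) (w w' : Fin n → ℕ) (Γ : ∀ i, EffCorr (eqs h g a) ξ (w i))
        (Γ' : ∀ i, EffCorr (eqs h g a) ξ (w' i)) (μ : Fin n → ℂ),
        (∀ i, ActsByScalar (eqs h g a) (Γ i) (Γ' i) (μ i)) →
        ∃ (D : ℕ → MvPolynomial (Fin (r + 3)) ℂ) (q : Fin n → ℚ) (N b : ℕ)
          (Ψ : Fin n → Module.End ℚ (CHQ (ciS (eqs h g a)))),
          (∀ j, (∃ e, (D j).IsHomogeneous e) ∧ ∃ p ∈ ciS (eqs h g a), aeval p.rep (D j) ≠ 0) ∧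
          (∀ i, μ i = q i) ∧ (∀ i, IsAct (Γ i) (Γ' i) (veryGen (eqs h g a) D) (Ψ i)) ∧
          (∀ i, ∀ Ψ', IsAct (Γ i) (Γ' i) (veryGen (eqs h g a) D) Ψ' → Ψ' = Ψ i) ∧
          TrNil (eqs h g a) E (veryGen (eqs h g a) D) Ψ q N b :=
  ⟨Pool.Agent.VRB.exists_pt h g a e d he hd hXs hXi, fun Ω _ _ _ ξ hξ hform n w w' Γ Γ' μ hm => by
    obtain ⟨D, q, N, b, Ψ, Θ, h1, h2, h3, h4, h5, h6, h7, h8⟩ :=
      mainC h g E a e d he hd hY hE hRC ha hrk htan hsep hXs hXi Ω ξ hξ hform n w w' Γ Γ' μ hm
    exact ⟨D, q, N, b, Ψ, h1, h2, h3, h4, h5, Θ, h6, h7, h8⟩⟩
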