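import Pool.Agent.VIR.Fin

/-!
# Bloch's conjecture up to nilpotents for surfaces in varieties which are fibred over a curve with
rationally connected fibres
-/

set_option autoImplicit false

open MvPolynomial
open Pool.Agent.VCI (ciS CHQ)
open Pool.Agent.VRC (cone IsIrr IsSmooth IsGenericPoint HasForm EffCorr ActsByScalar veryGen IsAct)
open Pool.Agent.VRB (eqs mat TanLe Separates)
open Pool.Agent.VIR

/-- Let `Y : h = 0` be an irreducible variety in the projective space of dimension `r + 2`, and let
the vectors of forms `(g 1 l, …, g m l)` be sections of a vector bundle of rank `c` on `Y`, which is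
contained in a sum of `m` line bundles, and `E k` bihomogeneous polynomials. Let the numbers `a l`
be algebraically independent over the field generated by the coefficients of the `h j`, the `g i l`
and the `E k` and let `X : h = 0, ∑ l, a l * g i l = 0` (`eqs h g a`) be a smooth irreducible
surface, such that the matrix `g i l` has rank `c` at its points, `Y` is smooth of dimension `c + 2`
there and the sections take independent values at a general point of `X` and any other point of `X`.
Let `E k (x, y) = 0` for all `k` be an equivalence relation on `X` for which not all points are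
equivalent; let the class of a general point `x` be irreducible and have another point, and let `x`
and a general point of its class be on a rational curve of `Y`. (So `X` and `Y` are mapped to a
curve of any genus, the classes are the fibres of `X` and the fibres of `Y` are rationally
connected.) The surface has a generic point `ξ` over an algebraic closure `Ω` of its function field.
Let `X` have a holomorphic two-form different from zero and let `Γ i` and `Γ' i` be finitely many
effective correspondences from `X` to itself, given over the generic point of the first factor, such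
that `Γ i - Γ' i` acts on the holomorphic two-forms of `X` by a complex number `μ i`. Then the `μ i`
are rational numbers `q i`. Outside countably many curves `D j = 0` of `X` the cycles `Γ i p` and
`Γ' i p` are defined, there is exactly one endomorphism `Ψ i` of the Chow group of zero-cycles of
`X` with rational coefficients which maps the class of `p` to the class of `Γ i p - Γ' i p` for all
these `p`, and for some `N` all products of `N` of the operators `Ψ i - q i` are zero on the classes
of the cycles of these points which are in the kernel of the Albanese map. -/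
theorem Pool.Agent.Results.MP_31564d_ag.IrregularSurfaces.result (r s m L c u : ℕ)
    (h : Fin s → MvPolynomial (Fin (r + 3)) ℂ)
    (g : Fin m → Fin L → MvPolynomial (Fin (r + 3)) ℂ)
    (E : Fin u → MvPolynomial (Fin (r + 3) ⊕ Fin (r + 3)) ℂ) (a : Fin L → ℂ) (e : Fin s → ℕ)
    (d : Fin m → ℕ) (he : ∀ j, (h j).IsHomogeneous (e j))
    (hd : ∀ i l, (g i l).IsHomogeneous (d i)) (hY : IsIrr h)
    (hE : IsFib (eqs h g a) E) (hRC : IsRCFib h (eqs h g a) E)
    (ha : AlgebraicIndependent (base h g E) a)
    (hrk : ∀ z ∈ cone (eqs h g a), (mat g z).rank = c)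
    (htan : ∀ z ∈ cone (eqs h g a), TanLe h (c + 3) z) (hsep : Separates (eqs h g a) g)
    (hXs : IsSmooth (eqs h g a)) (hXi : IsIrr (eqs h g a)) :
    (∃ (Ω : Type) (_ : Field Ω) (_ : Algebra ℂ Ω) (_ : IsAlgClosed Ω) (ξ : Fin (r + 3) → Ω),
      IsGenericPoint (eqs h g a) ξ) ∧
    ∀ (Ω : Type) [Field Ω] [Algebra ℂ Ω] [IsAlgClosed Ω] (ξ : Fin (r + 3) → Ω),
      IsGenericPoint (eqs h g a) ξ → HasForm (eqs h g a) ξ →
      ∀ (n : ℕ) (w w' : Fin n → ℕ) (Γ : ∀ i, EffCorr (eqs h g a) ξ (w i))
        (Γ' : ∀ i, EffCorr (eqs h g a) ξ (w' i)) (μ : Fin n → ℂ),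
        (∀ i, ActsByScalar (eqs h g a) (Γ i) (Γ' i) (μ i)) →
        ∃ (D : ℕ → MvPolynomial (Fin (r + 3)) ℂ) (q : Fin n → ℚ) (N : ℕ)
          (Ψ : Fin n → Module.End ℚ (CHQ (ciS (eqs h g a)))),
          (∀ j, (∃ e, (D j).IsHomogeneous e) ∧ ∃ p ∈ ciS (eqs h g a), aeval p.rep (D j) ≠ 0) ∧
          (∀ i, μ i = q i) ∧ (∀ i, IsAct (Γ i) (Γ' i) (veryGen (eqs h g a) D) (Ψ i)) ∧
          (∀ i, ∀ Ψ', IsAct (Γ i) (Γ' i) (veryGen (eqs h g a) D) Ψ' → Ψ' = Ψ i) ∧
          AlbZero (eqs h g a) ξ (veryGen (eqs h g a) D) Ψ q N :=
  ⟨Pool.Agent.VRB.exists_pt h g a e d he hd hXs hXi, fun Ω _ _ _ ξ hξ hform n w w' Γ Γ' μ hm =>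
    mainI h g E a e d he hd hY hE hRC ha hrk htan hsep hXs hXi Ω ξ hξ hform n w w' Γ Γ' μ hm⟩
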