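import Pool.Agent.VSY.Fin

/-!
# Bloch's conjecture up to nilpotents for surfaces with a finite group of symmetries
-/

set_option autoImplicit false

open MvPolynomial
open Pool.Agent.VCI (ciS CHQ WordsZero)
open Pool.Agent.VRC (cone IsIrr IsRC IsSmooth IsGenericPoint HasForm EffCorr ActsByScalar veryGen
  IsAct)
open Pool.Agent.VRB (eqs mat TanLe)
open Pool.Agent.VSY (mv base Inv Separates FormRel CycRel)

/-- Let `Y : h = 0` be an irreducible, rationally connected variety in the projective space of
dimension `r + 2`, let the vectors of forms `(g 1 l, …, g m l)` be sections of a vector bundle of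
rank `c` on `Y`, which is contained in a sum of `m` line bundles, and let the `A t` be finitely many
invertible matrices. Let the numbers `a l` be algebraically independent over the field generated by
the coefficients of the `h j` and the `g i l` and by the entries of the `A t`, and let
`X : h = 0, ∑ l, a l * g i l = 0` (`eqs h g a`) be a smooth irreducible surface, which is mapped to
itself by the projectivities `A t`, two of which differ on `X`, such that the matrix `g i l` has rank
`c` at its points, `Y` is smooth of dimension `c + 2` there and the sections take independent values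
at a general point `z` of `X` and each point of `X` different from the points `A t z`. (For the
trivial group see `VectorBundles`.) The surface has a generic point `ξ` over an algebraic closure
`Ω` of its function field. Let `X` have a holomorphic two-form different from zero, and suppose that
each combination `∑ t, b t * A t` with rational coefficients which is zero on the holomorphic
two-forms of `X` is zero on the zero-cycles of degree zero (in the Chow group with
rational coefficients); this is void if the `A t` are linearly independent on the two-forms. Let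
`Γ i` and `Γ' i` be finitely many effective correspondences from `X` to itself, given over the
generic point of the first factor, such that `Γ i - Γ' i` acts on the holomorphic two-forms of `X` by
zero. Outside countably many curves `D j = 0` of `X` the cycles `Γ i p` and `Γ' i p` are defined,
there is exactly one endomorphism `Ψ i` of the Chow group of zero-cycles of `X` with rational
coefficients which maps the class of `p` to the class of `Γ i p - Γ' i p` for all these `p`, and for
some `N` all products of `N` of the operators `Ψ i` are zero on the classes of degree zero. -/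
theorem Pool.Agent.Results.MP_31564d_ag.SymmetryGroups.result (r s m L c v : ℕ)
    (h : Fin s → MvPolynomial (Fin (r + 3)) ℂ)
    (g : Fin m → Fin L → MvPolynomial (Fin (r + 3)) ℂ)
    (A : Fin v → Matrix (Fin (r + 3)) (Fin (r + 3)) ℂ) (a : Fin L → ℂ) (e : Fin s → ℕ)
    (d : Fin m → ℕ) (he : ∀ j, (h j).IsHomogeneous (e j))
    (hd : ∀ i l, (g i l).IsHomogeneous (d i)) (hY : IsIrr h) (hRC : IsRC h)
    (ha : AlgebraicIndependent (base h g A) a)
    (hrk : ∀ z ∈ cone (eqs h g a), (mat g z).rank = c)
    (htan : ∀ z ∈ cone (eqs h g a), TanLe h (c + 3) z) (hA : Inv (eqs h g a) A)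
    (_hne : ∃ t t', ∃ z ∈ cone (eqs h g a), ∃ i j,
      mv (A t) z i * mv (A t') z j ≠ mv (A t) z j * mv (A t') z i)
    (hsep : Separates (eqs h g a) g A)
    (hXs : IsSmooth (eqs h g a)) (hXi : IsIrr (eqs h g a)) :
    (∃ (Ω : Type) (_ : Field Ω) (_ : Algebra ℂ Ω) (_ : IsAlgClosed Ω) (ξ : Fin (r + 3) → Ω),
      IsGenericPoint (eqs h g a) ξ) ∧
    ∀ (Ω : Type) [Field Ω] [Algebra ℂ Ω] [IsAlgClosed Ω] (ξ : Fin (r + 3) → Ω),
      IsGenericPoint (eqs h g a) ξ → HasForm (eqs h g a) ξ →
      (∀ b : Fin v → ℚ, FormRel (eqs h g a) ξ A b → CycRel (eqs h g a) A b) →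
      ∀ (n : ℕ) (w w' : Fin n → ℕ) (Γ : ∀ i, EffCorr (eqs h g a) ξ (w i))
        (Γ' : ∀ i, EffCorr (eqs h g a) ξ (w' i)),
        (∀ i, ActsByScalar (eqs h g a) (Γ i) (Γ' i) 0) →
        ∃ (D : ℕ → MvPolynomial (Fin (r + 3)) ℂ) (N : ℕ)
          (Ψ : Fin n → Module.End ℚ (CHQ (ciS (eqs h g a)))),
          (∀ j, (∃ e, (D j).IsHomogeneous e) ∧ ∃ p ∈ ciS (eqs h g a), aeval p.rep (D j) ≠ 0) ∧
          (∀ i, IsAct (Γ i) (Γ' i) (veryGen (eqs h g a) D) (Ψ i)) ∧
          (∀ i, ∀ Ψ', IsAct (Γ i) (Γ' i) (veryGen (eqs h g a) D) Ψ' → Ψ' = Ψ i) ∧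
          WordsZero Ψ 0 N :=
  ⟨VRB.exists_pt h g a e d he hd hXs hXi, fun Ω _ _ _ ξ hξ hform hG n w w' Γ Γ' hm =>
    VSY.mainG e d he hd hY hRC ha hrk htan hA hsep hXs hXi Ω ξ hξ hform hG n w w' Γ Γ' hm⟩
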